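import Pool.Agent.L0h35.SvDefs
import Mathlib

set_option autoImplicit false

/-!
# Module J of the solvable group barrier: a chain of sections
-/

namespace Pool.Agent.L0h66.Sv

open Finset Module Pool.Agent.L0h35.Sv

/-- The rate is monotone. -/
theorem Rate.mono {G : Type} [Group G] {a b : ℝ} (h0 : 0 ≤ a) (hab : a ≤ b) (h : Rate G a) :
    Rate G b := by
  intro n I _ x y z hm
  refine (h n I x y z hm).trans ?_
  have := pow_le_pow_left₀ h0 hab n
  linarith

/-- The order of an intersection. -/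
theorem card_inf_le {G : Type} [Group G] [Finite G] (P H K : Subgroup G) (hH : H ≤ P)
    (hK : K ≤ P) :
    Nat.card H * Nat.card K ≤ Nat.card (H ⊓ K : Subgroup G) * Nat.card P := by
  have h1 : (K.subgroupOf H).index ≤ (K.subgroupOf P).index := by
    have := Subgroup.relIndex_le_of_le_right (H := K) hH
      (by
        have : Finite (P ⧸ K.subgroupOf P) := inferInstance
        exact Subgroup.index_ne_zero_of_finite)
    exact this
  have h2 : Nat.card (H ⊓ K : Subgroup G) * (K.subgroupOf H).index = Nat.card H := by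
    have e : Nat.card (K.subgroupOf H) = Nat.card (H ⊓ K : Subgroup G) := by
      rw [← Subgroup.inf_subgroupOf_left]
      exact Nat.card_congr (Subgroup.subgroupOfEquivOfLe inf_le_left).toEquiv
    rw [← e]
    exact Subgroup.card_mul_index _
  have h3 : Nat.card K * (K.subgroupOf P).index = Nat.card P := by
    have e : Nat.card (K.subgroupOf P) = Nat.card K :=
      Nat.card_congr (Subgroup.subgroupOfEquivOfLe hK).toEquiv
    rw [← e]
    exact Subgroup.card_mul_index _
  rw [← h2, ← h3]
  nlinarith [Nat.mul_le_mul_left (Nat.card (H ⊓ K : Subgroup G) * Nat.card K) h1]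

/-- The partial intersections. -/
def HH {G : Type} [Group G] (P : Subgroup G) (Hf : ℕ → Subgroup G) : ℕ → Subgroup G
  | 0 => P
  | k + 1 => HH P Hf k ⊓ Hf k

/-- The chain. -/
def Cs {G : Type} [Group G] (H : Subgroup G) (U T : ℕ → Subgroup G) : ℕ → Subgroup G
  | 0 => H
  | j + 1 => if j % 2 = 0 then U (j / 2) else T (j / 2)

theorem HH_le {G : Type} [Group G] (P : Subgroup G) (Hf : ℕ → Subgroup G) (k : ℕ) :
    HH P Hf k ≤ P := by
  induction k with
  | zero => exact le_rfl
  | succ k ih => exact inf_le_left.trans ih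

theorem HH_le' {G : Type} [Group G] (P : Subgroup G) (Hf : ℕ → Subgroup G) (m : ℕ) :
    ∀ i < m, HH P Hf m ≤ Hf i := by
  induction m with
  | zero => intro i hi; omega
  | succ m ih =>
    intro i hi
    rcases Nat.lt_succ_iff_lt_or_eq.1 hi with h | h
    · exact inf_le_left.trans (ih i h)
    · subst h; exact inf_le_right

theorem HH_normal {G : Type} [Group G] (P : Subgroup G) (Hf : ℕ → Subgroup G) (hP : P.Normal)
    (hH : ∀ i, (Hf i).Normal) (k : ℕ) : (HH P Hf k).Normal := by
  induction k with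
  | zero => exact hP
  | succ k ih =>
    have := hH k
    exact Subgroup.normal_inf_normal _ _

theorem le_HH {G : Type} [Group G] (P V : Subgroup G) (Hf : ℕ → Subgroup G) (hP : V ≤ P)
    (hH : ∀ i, V ≤ Hf i) (k : ℕ) : V ≤ HH P Hf k := by
  induction k with
  | zero => exact hP
  | succ k ih => exact le_inf ih (hH k)

theorem HH_card {G : Type} [Group G] [Finite G] (P : Subgroup G) (U Hf : ℕ → Subgroup G)
    (hle : ∀ i, Hf i ≤ P)
    (hc : ∀ i, Nat.card P * Nat.card (U (i + 1)) ^ 10 ≤ Nat.card (Hf i) * Nat.card (U i) ^ 10)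
    (k : ℕ) : Nat.card P * Nat.card (U k) ^ 10 ≤ Nat.card (HH P Hf k) * Nat.card (U 0) ^ 10 := by
  induction k with
  | zero => exact le_rfl
  | succ k ih =>
    have h1 := card_inf_le P (HH P Hf k) (Hf k) (HH_le P Hf k) (hle k)
    have h2 := Nat.mul_le_mul ih (hc k)
    have h3 : 0 < Nat.card P * Nat.card (U k) ^ 10 := by
      have : 0 < Nat.card P := Nat.card_pos
      have : 0 < Nat.card (U k) := Nat.card_pos
      positivity
    refine Nat.le_of_mul_le_mul_left ?_ h3
    calc Nat.card P * Nat.card (U k) ^ 10 * (Nat.card P * Nat.card (U (k + 1)) ^ 10)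
        ≤ (Nat.card (HH P Hf k) * Nat.card (U 0) ^ 10) *
          (Nat.card (Hf k) * Nat.card (U k) ^ 10) := h2
      _ = (Nat.card (HH P Hf k) * Nat.card (Hf k)) * (Nat.card (U 0) ^ 10 *
          Nat.card (U k) ^ 10) := by ring
      _ ≤ (Nat.card (HH P Hf k ⊓ Hf k : Subgroup G) * Nat.card P) * (Nat.card (U 0) ^ 10 *
          Nat.card (U k) ^ 10) := Nat.mul_le_mul_right _ h1
      _ = Nat.card P * Nat.card (U k) ^ 10 *
          (Nat.card (HH P Hf (k + 1)) * Nat.card (U 0) ^ 10) := by
        change _ = Nat.card P * Nat.card (U k) ^ 10 *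
          (Nat.card (HH P Hf k ⊓ Hf k : Subgroup G) * Nat.card (U 0) ^ 10)
        ring

theorem stJ_of (hI : StI) (hF : StF) : StJ := by
  intro p _ G _ _ P V m U hPn hVP hPP hPp hU0 hUm hUn hUd hUp hUc n s hVs hPs hns
  have hp : p.Prime := Fact.out
  have hUV : ∀ i, U i ≤ V := by
    intro i
    induction i with
    | zero => rw [hU0]
    | succ i ih => exact (hUd i).trans ih
  have hUP : ∀ i, U i ≤ P := fun i => (hUV i).trans hVP
  -- the sections
  have hI' := fun i : ℕ => hI p G P (U i) (U (i + 1)) hPn (hUn i) (hUn (i + 1)) (hUd i) (hUp i)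
    ((Subgroup.commutator_mono le_rfl (hUV i)).trans (hUc i))
    ((Subgroup.commutator_mono hPP le_rfl).trans
      ((Subgroup.commutator_comm V (U i)).le.trans (hUc i)))
  choose Hf T hHn hTn hHP hBT hTA hHA hHT hcard hcl using hI'
  set H : Subgroup G := HH P Hf m with hHdef
  have hHP' : H ≤ P := HH_le P Hf m
  have hHf : ∀ i < m, H ≤ Hf i := HH_le' P Hf m
  have hHnorm : H.Normal := HH_normal P Hf hPn hHn m
  have hVH : V ≤ H := by
    refine le_HH P V Hf hVP ?_ m
    intro i x hx
    refine hcl i x (hVP hx) ?_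
    intro a ha
    refine hUc i ?_
    rw [Subgroup.commutator_comm]
    exact Subgroup.commutator_mem_commutator hx ha
  have hUbot : ∀ i, m ≤ i → U i = ⊥ := by
    intro i hi
    induction i, hi using Nat.le_induction with
    | base => exact hUm
    | succ i _ ih => exact le_bot_iff.1 ((hUd i).trans ih.le)
  have hTbot : ∀ i, m ≤ i → T i = ⊥ := by
    intro i hi
    exact le_bot_iff.1 ((hTA i).trans (hUbot i hi).le)
  have hcH : Nat.card P ≤ Nat.card H * Nat.card V ^ 10 := by
    have := HH_card P U Hf hHP hcard m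
    rw [hUm, hU0] at this
    simpa using this
  -- the chain
  set C : ℕ → Subgroup G := Cs H U T with hC
  have hC0 : C 0 = H := rfl
  have hCe : ∀ i, C (2 * i + 1) = U i := by
    intro i
    change (if (2 * i) % 2 = 0 then U (2 * i / 2) else T (2 * i / 2)) = U i
    rw [if_pos (by omega)]
    congr 1
    omega
  have hCo : ∀ i, C (2 * i + 2) = T i := by
    intro i
    change (if (2 * i + 1) % 2 = 0 then U ((2 * i + 1) / 2) else T ((2 * i + 1) / 2)) = T i
    rw [if_neg (by omega)]
    congr 1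
    omega
  have hcase : ∀ j, j = 0 ∨ (∃ i, j = 2 * i + 1) ∨ ∃ i, j = 2 * i + 2 := by
    intro j
    rcases Nat.even_or_odd' j with ⟨i, h | h⟩
    · rcases i with _ | i
      · left; omega
      · right; right; exact ⟨i, by omega⟩
    · right; left; exact ⟨i, h⟩
  have hchain : Chain p H (2 * m + 1) C := by
    refine ⟨hC0, ?_, ?_, ?_, ?_, ?_⟩
    · rw [hCe m, hUm]
    · intro j
      rcases hcase j with rfl | ⟨i, rfl⟩ | ⟨i, rfl⟩
      · rw [hC0]; exact hHnorm
      · rw [hCe]; exact hUn i
      · rw [hCo]; exact hTn i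
    · intro j
      rcases hcase j with rfl | ⟨i, rfl⟩ | ⟨i, rfl⟩
      · rw [hC0, show (0 + 1) = 2 * 0 + 1 from rfl, hCe, hU0]; exact hVH
      · rw [hCe, show 2 * i + 1 + 1 = 2 * i + 2 from rfl, hCo]; exact hTA i
      · rw [hCo, show 2 * i + 2 + 1 = 2 * (i + 1) + 1 by ring, hCe]; exact hBT i
    · intro j
      rcases hcase j with rfl | ⟨i, rfl⟩ | ⟨i, rfl⟩
      · rw [hC0, show (0 + 1) = 2 * 0 + 1 from rfl, hCe, hU0]
        intro c hc; exact hPp c (hHP' hc)
      · rw [hCe, show 2 * i + 1 + 1 = 2 * i + 2 from rfl, hCo]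
        intro c hc; exact hBT i (hUp i c hc)
      · rw [hCo, show 2 * i + 2 + 1 = 2 * (i + 1) + 1 by ring, hCe]
        intro c hc; exact hUp i c (hTA i hc)
    · intro j
      rcases hcase j with rfl | ⟨i, rfl⟩ | ⟨i, rfl⟩
      · rw [hC0, show (0 + 1) = 2 * 0 + 1 from rfl, hCe, hU0]
        exact (Subgroup.commutator_mono hHP' hHP').trans hPP
      · rw [hCe, show 2 * i + 1 + 1 = 2 * i + 2 from rfl, hCo]
        rcases lt_or_ge i m with h | h
        · rw [Subgroup.commutator_comm]
          exact (Subgroup.commutator_mono (hHf i h) le_rfl).trans (hHA i)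
        · rw [hUbot i h, Subgroup.commutator_bot_left]
          exact bot_le
      · rw [hCo, show 2 * i + 2 + 1 = 2 * (i + 1) + 1 by ring, hCe]
        rcases lt_or_ge i m with h | h
        · rw [Subgroup.commutator_comm]
          exact (Subgroup.commutator_mono (hHf i h) le_rfl).trans (hHT i)
        · rw [hTbot i h, Subgroup.commutator_bot_left]
          exact bot_le
  have hdec : ∀ i, C (i + 1) ≤ C i := hchain.2.2.2.1
  have hCP : ∀ j, C j ≤ P := by
    intro j
    induction j with
    | zero => rw [hC0]; exact hHP'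
    | succ j ih => exact (hdec j).trans ih
  have hCpow : ∀ j, ∃ e, Nat.card (C j) = p ^ e := by
    intro j
    have h1 : Nat.card (C j) ∣ p ^ (n + s) := hPs ▸ Subgroup.card_dvd_of_le (hCP j)
    obtain ⟨e, _, he⟩ := (Nat.dvd_prime_pow hp).1 h1
    exact ⟨e, he⟩
  choose e he using hCpow
  have hemono : ∀ j, e (j + 1) ≤ e j := by
    intro j
    have h1 : Nat.card (C (j + 1)) ∣ Nat.card (C j) := Subgroup.card_dvd_of_le (hdec j)
    rw [he, he] at h1
    exact (Nat.pow_dvd_pow_iff_le_right hp.one_lt).1 h1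
  have he1 : e 1 = s := by
    have h1 := he 1
    rw [show (1 : ℕ) = 2 * 0 + 1 from rfl, hCe, hU0, hVs] at h1
    exact (Nat.pow_right_injective hp.two_le h1).symm
  have heL : e (2 * m + 1) = 0 := by
    have h1 := he (2 * m + 1)
    rw [hCe, hUm, Subgroup.card_bot] at h1
    have : p ^ (e (2 * m + 1)) = p ^ 0 := by rw [← h1, pow_zero]
    exact Nat.pow_right_injective hp.two_le this
  set d : ℕ → ℕ := fun i => e i - e (i + 1) with hd
  have hdi : ∀ i, e i = d i + e (i + 1) := by
    intro i
    have := hemono i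
    simp only [hd]
    omega
  have hdcard : ∀ i < 2 * m + 1, Nat.card (C i) = p ^ d i * Nat.card (C (i + 1)) := by
    intro i _
    rw [he, he, ← pow_add, ← hdi i]
  have hsum : ∀ k, ∑ i ∈ range k, d (i + 1) + e (k + 1) = e 1 := by
    intro k
    induction k with
    | zero => simp
    | succ k ih =>
      rw [sum_range_succ, ← ih, hdi (k + 1)]
      ring
  have hsum' : ∑ i ∈ range (2 * m), d (i + 1) = s := by
    have := hsum (2 * m)
    rw [heL, he1] at this
    omega
  have hd0 : n ≤ d 0 + 10 * s := by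
    have h1 : e 0 = d 0 + s := by rw [hdi 0]; simp [he1]
    have h2 := hcH
    rw [hPs, ← hC0, he 0, hVs, h1, ← pow_mul, ← pow_add] at h2
    have h3 := (Nat.pow_le_pow_iff_right hp.one_lt).1 h2
    omega
  have hpp : 1 ≤ (2 * p) ^ (2 * m) := Nat.one_le_pow _ _ (by have := hp.pos; omega)
  have hbig : 20 * ∑ i ∈ range (2 * m), (2 * p) ^ (i + 1) * d (i + 1) ≤ d 0 := by
    have h1 : ∑ i ∈ range (2 * m), (2 * p) ^ (i + 1) * d (i + 1) ≤
        ∑ i ∈ range (2 * m), (2 * p) ^ (2 * m) * d (i + 1) := by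
      refine sum_le_sum fun i hi => Nat.mul_le_mul_right _ ?_
      refine Nat.pow_le_pow_right (by have := hp.pos; omega) ?_
      have := mem_range.1 hi
      omega
    rw [← mul_sum, hsum'] at h1
    have h2 : s ≤ (2 * p) ^ (2 * m) * s := Nat.le_mul_of_pos_left _ hpp
    have h3 : 30 * ((2 * p) ^ (2 * m) * s) ≤ n := by rw [← mul_assoc]; exact hns
    omega
  have hR := hF p G H (2 * m) C hchain d hdcard hbig
  refine Rate.mono (by positivity) ?_ hR
  refine mul_le_mul_of_nonneg_left ?_ (by positivity)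
  refine Real.exp_le_exp.2 ?_
  have h4 : 30 * s ≤ n := by
    have h2 : s ≤ (2 * p) ^ (2 * m) * s := Nat.le_mul_of_pos_left _ hpp
    have h3 : 30 * ((2 * p) ^ (2 * m) * s) ≤ n := by rw [← mul_assoc]; exact hns
    omega
  have h5 : n ≤ 2 * d 0 := by omega
  have h6 : (n : ℝ) ≤ 2 * d 0 := by exact_mod_cast h5
  linarith

end Pool.Agent.L0h66.Sv
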