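import Pool.Agent.L0h35.SvDefs2
import Mathlib

set_option autoImplicit false

/-!
# Module R of the solvable group barrier: direct families and the triple product property
-/

namespace Pool.Agent.L0h66.Sv

open Finset Module Pool.Agent.L0h35.Sv Pool.Agent.L0h35.GT

theorem card_conj {G : Type} [Group G] (A B : Subgroup G) (g : G)
    (h : ∀ x : G, x ∈ A ↔ g * x * g⁻¹ ∈ B) : Nat.card A = Nat.card B := by
  refine Nat.card_congr ⟨fun x => ⟨g * x * g⁻¹, (h x).1 x.2⟩,
    fun y => ⟨g⁻¹ * y * g, (h _).2 (by
      have : g * (g⁻¹ * (y : G) * g) * g⁻¹ = y := by group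
      rw [this]; exact y.2)⟩, ?_, ?_⟩
  · intro x
    ext
    simp [mul_assoc]
  · intro y
    ext
    simp [mul_assoc]

/-- Pigeonhole. -/
theorem pigeon {ι : Type} [Fintype ι] [Nonempty ι] (f : ι → ℕ) (b : ℕ) (h1 : ∀ i, 1 ≤ f i)
    (h2 : ∀ i, f i ≤ b) :
    ∃ i₀ : ι, Fintype.card ι ≤ b * (univ.filter fun i => f i = f i₀).card := by
  classical
  obtain ⟨i₀, _, h⟩ := Finset.exists_max_image (univ : Finset ι)
    (fun j => (univ.filter fun i => f i = f j).card) univ_nonempty
  refine ⟨i₀, ?_⟩
  have hm : ∀ i ∈ (univ : Finset ι), f i ∈ Icc 1 b := fun i _ => mem_Icc.2 ⟨h1 i, h2 i⟩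
  have h3 := Finset.card_eq_sum_card_fiberwise hm
  rw [card_univ] at h3
  rw [h3]
  calc ∑ x ∈ Icc 1 b, (univ.filter fun i => f i = x).card
      ≤ ∑ _x ∈ Icc 1 b, (univ.filter fun i => f i = f i₀).card := by
        refine sum_le_sum fun x _ => ?_
        by_cases hx : ∃ j, f j = x
        · obtain ⟨j, rfl⟩ := hx
          exact h j (mem_univ j)
        · have : (univ.filter fun i => f i = x) = ∅ := by
            refine filter_eq_empty_iff.2 ?_
            intro i _ hi
            exact hx ⟨i, hi⟩
          rw [this, card_empty]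
          exact Nat.zero_le _
    _ = b * (univ.filter fun i => f i = f i₀).card := by
        rw [sum_const, Nat.card_Icc, smul_eq_mul]
        congr 1

theorem stR_of (hQ : StQ) (hE : StE) : StR := by
  intro G _ _ ι _ T b hT h2 hb I _ A B C hS τ hτ
  classical
  have hGpos : (0 : ℝ) < Nat.card G := by exact_mod_cast Nat.card_pos
  rcases isEmpty_or_nonempty ι with hι | hι
  · have hp2 : Fact (Nat.Prime 2) := ⟨Nat.prime_two⟩
    have h := hE G _ (mul_pos hGpos (Real.exp_pos _)) (hQ 2 G ι T hT (fun i => isEmptyElim i))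
      I A B C hS τ hτ
    refine h.trans (le_of_eq ?_)
    have e1 : ∑ i : ι, (1 : ℝ) / Nat.card (T i) = 0 := by
      rw [univ_eq_empty, sum_empty]
    have e2 : (Fintype.card ι : ℝ) = 0 := by
      rw [Fintype.card_eq_zero]; simp
    rw [e1, e2]
    simp [hGpos.ne']
  · obtain ⟨i₀, hi₀⟩ := pigeon (fun i => (Nat.card (T i)).minFac) b
      (fun i => Nat.minFac_pos _)
      (fun i => (Nat.minFac_le (by have := h2 i; omega)).trans (hb i))
    set p := (Nat.card (T i₀)).minFac with hpdef
    have hpp : p.Prime := Nat.minFac_prime (by have := h2 i₀; omega)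
    have : Fact p.Prime := ⟨hpp⟩
    have hbpos : 0 < b := by have := h2 i₀; have := hb i₀; omega
    let ι' : Type := {i : ι // p ∣ Nat.card (T i)}
    let T' : ι' → Subgroup G := fun i => T i.1
    have hT' : DirectFamily T' := by
      refine ⟨?_, ?_, ?_⟩
      · intro i j hij x hx y hy
        exact hT.1 i.1 j.1 (fun h => hij (Subtype.ext h)) x hx y hy
      · exact hT.2.1.comp Subtype.val_injective
      · intro g i
        obtain ⟨j, hj⟩ := hT.2.2 g i.1
        refine ⟨⟨j, ?_⟩, hj⟩
        rw [← card_conj (T i.1) (T j) g hj]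
        exact i.2
    have hR := hQ p G ι' T' hT' (fun i => i.2)
    have h := hE G _ (mul_pos hGpos (Real.exp_pos _)) hR I A B C hS τ hτ
    refine h.trans ?_
    have hcard : (univ.filter fun i : ι => (Nat.card (T i)).minFac = p).card ≤
        Fintype.card ι' := by
      rw [Fintype.card_subtype]
      refine card_le_card ?_
      intro i hi
      rw [mem_filter] at hi ⊢
      refine ⟨mem_univ _, ?_⟩
      rw [← hi.2]
      exact Nat.minFac_dvd _
    have hk : Fintype.card ι ≤ b * Fintype.card ι' :=
      hi₀.trans (Nat.mul_le_mul_left _ hcard)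
    have hk' : (Fintype.card ι : ℝ) ≤ b * Fintype.card ι' := by exact_mod_cast hk
    have hb' : (0 : ℝ) < b := by exact_mod_cast hbpos
    have hmu : (Fintype.card ι : ℝ) / b ^ 2 ≤ ∑ i : ι', (1 : ℝ) / Nat.card (T' i) := by
      calc (Fintype.card ι : ℝ) / b ^ 2 ≤ (Fintype.card ι' : ℝ) * (1 / b) := by
            rw [div_le_iff₀ (by positivity)]
            have : (Fintype.card ι' : ℝ) * (1 / b) * b ^ 2 = b * Fintype.card ι' := by
              field_simp
            rw [this]
            exact hk'
        _ = ∑ _i : ι', (1 : ℝ) / b := by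
            rw [sum_const, card_univ, nsmul_eq_mul]
        _ ≤ ∑ i : ι', (1 : ℝ) / Nat.card (T' i) := by
            refine sum_le_sum fun i _ => ?_
            have h3 : 0 < Nat.card (T' i) := Nat.card_pos
            refine one_div_le_one_div_of_le (by exact_mod_cast h3) ?_
            exact_mod_cast hb i.1
    have e : (Nat.card G : ℝ) * Real.exp (-(∑ i, (1 : ℝ) / Nat.card (T' i)) / 32) / Nat.card G
        = Real.exp (-(∑ i, (1 : ℝ) / Nat.card (T' i)) / 32) := by
      field_simp
    rw [e]
    refine mul_le_mul_of_nonneg_left (Real.exp_le_exp.2 ?_) (by positivity)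
    have e2 : -(Fintype.card ι : ℝ) / (32 * b ^ 2) = -((Fintype.card ι : ℝ) / b ^ 2) / 32 := by
      field_simp
    rw [e2]
    linarith

end Pool.Agent.L0h66.Sv
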